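import Pool.Agent.Lib.MP_7561b1_an.Generic

/-!
# The generic extension of a multiply mixing transformation is multiply mixing

Positive answer to Q2 of MP_7561b1_an.
-/

open MeasureTheory Filter Pool.Agent.Lib.MP_7561b1_an

namespace Pool.Agent.Results.MP_7561b1_an.Q2GenericMultiplyMixing

/-- Let `(X,μ)`, `(Y,ν)` be standard non-atomic probability spaces and let `T` be an invertible
`μ`-preserving transformation which is multiply mixing. For every cocycle `α` whose class modulo
null sets lies in a comeagre subset of the space of classes of cocycles (with the topology of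
convergence in measure), the extension `T_α(x,y) = (Tx, α(x)y)` is multiply mixing. -/
theorem result {X Y : Type*} [MeasurableSpace X] [StandardBorelSpace X]
    [MeasurableSpace Y] [StandardBorelSpace Y]
    (μ : Measure X) [IsProbabilityMeasure μ] [NullSingletonClass μ]
    (ν : Measure Y) [IsProbabilityMeasure ν] [NullSingletonClass ν]
    (T : X ≃ᵐ X) (hT : MeasurePreserving T μ μ) (hmix : IsMultiplyMixing T μ) :
    ∀ᶠ c in residual (CocycleClass μ ν), ∀ α : Cocycle μ ν, α.toClass = c →
      IsMultiplyMixing (skew T α) (μ.prod ν) :=
  generic_multiplyMixing hmix hT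

end Pool.Agent.Results.MP_7561b1_an.Q2GenericMultiplyMixing
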